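import Pool.Agent.Helper76K9.XR.Main
import Pool.Agent.Helper76K9.XR.Fix
import Pool.Agent.Helper76K9.XR.Elem
import Pool.Agent.Helper76K9.XR.Level
import Pool.Agent.Helper76K9.XR.Sop
import Pool.Agent.Helper76K9.XR.Body
import Pool.Agent.Helper76K9.XR.Chord
import Pool.Agent.Helper76K9.XR.Trans

/-!
# Two point sources never determine convex bodies (MP_e55421_gt)

For ANY two distinct points `x, y` of the plane there are two different convex bodies with the same
chord functions at `x` and at `y`. So no set of two points determines convex bodies, the conjecture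
`N = 2` is false, and `3 ≤ N`. The two bodies are the two alternatives of Falconer's theorem: both
points are exterior to both bodies, the line through them meets both interiors, the points lie on
opposite sides of `K` and on the same side of `L`; hence neither alternative can be excluded.

Proof in one paragraph. Take `x = (-1,0)`, `y = (1,0)`,
`K = {a ≤ s ≤ b, |t| ≤ k(s)}` with `-1 < a < b < 1` and `L = {c ≤ -s ≤ d, |t| ≤ l(-s)}` with
`c = a + T`, `d = b + T`. With `g = l/(u+1)` (`u = s + T`) and `k = g (1+s)(u+1)/(u-1)` the chord
functions at `(-1,0)` agree, and those at `(1,0)` agree if and only if `g` and `g E` are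
equimeasurable on `[a,b]`, where `E(s) = (1+s)(u+1)/((1-s)(u-1))`. For `T = 41/20`, `b = -7/10`
the function `E` is increasing and concave on the interval, and `a` is chosen so that the integral
of `log E` is zero. The map `g ↦ decreasing rearrangement of g E` is nonexpansive for
`sup |log|` and preserves the class of positive, concave, decreasing functions with a fixed
logarithmic Lipschitz bound, so that it has a fixed point `g` in this class (contractions
`g ↦ ((g E)^*)^lambda`, `lambda < 1`, and Arzela-Ascoli). Then `k` and `l` are concave.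
-/

open Set MeasureTheory

namespace Pool.Agent.Results.MP_e55421_gt.TwoPointsNeverSuffice

/-- The Euclidean plane. -/
abbrev Plane : Type := EuclideanSpace ℝ (Fin 2)

/-- The unit vector with polar angle `θ`. -/
noncomputable def unitVec (θ : ℝ) : Plane := !₂[Real.cos θ, Real.sin θ]

/-- The chord function of `K` at `x`: the length of `K ∩ ℓ(x, θ)`, where `ℓ(x, θ)` is the line
`{x + t • unitVec θ}` through `x` (the parameter `t` is arc length). -/
noncomputable def chord (K : Set Plane) (x : Plane) (θ : ℝ) : ℝ :=
  (volume {t : ℝ | x + t • unitVec θ ∈ K}).toReal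

/-- A convex body: a compact convex set with nonempty interior. -/
def IsConvexBody (K : Set Plane) : Prop := Convex ℝ K ∧ IsCompact K ∧ (interior K).Nonempty

/-- `P` determines convex bodies. -/
def Determines (P : Set Plane) : Prop :=
  ∀ K L : Set Plane, IsConvexBody K → IsConvexBody L →
    (∀ x ∈ P, ∀ θ ∈ Ico 0 Real.pi, chord K x θ = chord L x θ) → K = L

/-- No three points of `P` are collinear. -/
def NoThreeCollinear (P : Set Plane) : Prop :=
  ∀ x ∈ P, ∀ y ∈ P, ∀ z ∈ P, x ≠ y → y ≠ z → x ≠ z → ¬ Collinear ℝ {x, y, z}

/-- Every set of `k` distinct points, no three of them collinear, determines convex bodies. -/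
def Suffices (k : ℕ) : Prop :=
  ∀ P : Finset Plane, P.card = k → NoThreeCollinear (P : Set Plane) → Determines (P : Set Plane)

theorem pair (x y : Plane) (hxy : x ≠ y) :
    ∃ K L : Set Plane, IsConvexBody K ∧ IsConvexBody L ∧ K ≠ L ∧
      x ∉ K ∧ y ∉ K ∧ x ∉ L ∧ y ∉ L ∧
      (∀ θ, chord K x θ = chord L x θ) ∧ (∀ θ, chord K y θ = chord L y θ) ∧
      (∃ z ∈ interior K, z ∈ openSegment ℝ x y) ∧
      (∃ w ∈ interior L, x ∈ openSegment ℝ w y) := by
  obtain ⟨K, L, hK, hL, h⟩ := Helper76K9.XR.main Helper76K9.XR.elem
    (Helper76K9.XR.fix Helper76K9.XR.level (Helper76K9.XR.int_S Helper76K9.XR.level)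
      Helper76K9.XR.sop) Helper76K9.XR.body Helper76K9.XR.chord_sub Helper76K9.XR.trans x y hxy
  exact ⟨K, L, ⟨hK.convex, hK.compact, hK.int⟩, ⟨hL.convex, hL.compact, hL.int⟩, h⟩

/-- **Two points never suffice.** For any two distinct points `x, y` there are convex bodies
`K ≠ L`, containing neither point, with the same chord functions at `x` and at `y`, where `x` and
`y` lie on opposite sides of `K` and on the same side of `L` on the line through them, which meets
the interiors of both. In particular no set of two points determines convex bodies, and every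
`k ≥ 1` such that `k` points (no three collinear) always determine convex bodies is at least
`3`. -/
theorem result :
    (∀ x y : Plane, x ≠ y → ∃ K L : Set Plane, IsConvexBody K ∧ IsConvexBody L ∧ K ≠ L ∧
      x ∉ K ∧ y ∉ K ∧ x ∉ L ∧ y ∉ L ∧
      (∀ θ, chord K x θ = chord L x θ) ∧ (∀ θ, chord K y θ = chord L y θ) ∧
      (∃ z ∈ interior K, z ∈ openSegment ℝ x y) ∧
      (∃ w ∈ interior L, x ∈ openSegment ℝ w y)) ∧
    (∀ P : Finset Plane, P.card = 2 → ¬ Determines (P : Set Plane)) ∧
    (∀ k : ℕ, 1 ≤ k → Suffices k → 3 ≤ k) := by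
  have two : ∀ P : Finset Plane, P.card = 2 → ¬ Determines (P : Set Plane) := by
    intro P hP hD
    obtain ⟨x, y, hxy, rfl⟩ := Finset.card_eq_two.1 hP
    obtain ⟨K, L, hK, hL, hKL, -, -, -, -, h1, h2, -, -⟩ := pair x y hxy
    refine hKL (hD K L hK hL ?_)
    intro z hz θ _
    rw [Finset.coe_insert, Finset.coe_singleton] at hz
    rcases hz with rfl | hz
    · exact h1 θ
    · rw [mem_singleton_iff] at hz
      subst hz
      exact h2 θ
  refine ⟨pair, two, fun k hk hs => ?_⟩
  by_contra hlt
  have hk2 : k = 1 ∨ k = 2 := by omega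
  have hne : (0 : Plane) ≠ !₂[1, 0] := by
    intro h
    have := congrArg (fun v : Plane => v 0) h
    simp at this
  rcases hk2 with rfl | rfl
  · obtain ⟨K, L, hK, hL, hKL, -, -, -, -, h1, -⟩ := pair 0 !₂[1, 0] hne
    refine hKL (hs {0} (by simp) ?_ K L hK hL ?_)
    · intro x hx y hy z hz hxy
      simp at hx hy
      exact absurd (hx.trans hy.symm) hxy
    · intro z hz θ _
      simp at hz
      subst hz
      exact h1 θ
  · refine two {0, !₂[1, 0]} (Finset.card_pair hne) (hs {0, !₂[1, 0]} (Finset.card_pair hne) ?_)
    intro x hx y hy z hz hxy hyz hxz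
    simp at hx hy hz
    rcases hx with rfl | rfl <;> rcases hy with rfl | rfl <;> rcases hz with rfl | rfl <;> simp_all

end Pool.Agent.Results.MP_e55421_gt.TwoPointsNeverSuffice
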